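import Pool.Agent.H224R2.Mah.Defs

/-! Task A2 : `Re U' > 0`, injectivity of `U`. -/

set_option autoImplicit false

namespace Pool.Agent.H224R2.Mah

open MeasureTheory Set Filter Topology

/-- derivative of the complex arctangent in the unit disc -/
theorem A2_arctan_deriv {z : ℂ} (hz : ‖z‖ < 1) :
    HasDerivAt Complex.arctan (1 + z ^ 2)⁻¹ z := by
  have hzI : ‖z * Complex.I‖ < 1 := by simpa using hz
  have h1 : (1 - z * Complex.I) ≠ 0 := by
    intro h
    have : z * Complex.I = 1 := (sub_eq_zero.1 h).symm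
    rw [this] at hzI
    simp at hzI
  have h2 : (1 + z * Complex.I) ≠ 0 := by
    intro h
    have : z * Complex.I = -1 := by linear_combination h
    rw [this] at hzI
    simp at hzI
  have hs : (1 + z * Complex.I) / (1 - z * Complex.I) ∈ Complex.slitPlane := by
    left
    rw [Complex.div_re]
    have hn : 0 < Complex.normSq (1 - z * Complex.I) := Complex.normSq_pos.2 h1
    have hz2 : z.re ^ 2 + z.im ^ 2 < 1 := by
      have h3 : ‖z‖ ^ 2 < 1 := by
        have := norm_nonneg z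
        nlinarith
      rw [Complex.sq_norm, Complex.normSq_apply] at h3
      nlinarith
    rw [← add_div]
    refine div_pos ?_ hn
    simp
    nlinarith
  have h3 : HasDerivAt (fun w : ℂ => (1 + w * Complex.I) / (1 - w * Complex.I))
      ((Complex.I * (1 - z * Complex.I) - (1 + z * Complex.I) * (-Complex.I)) /
        (1 - z * Complex.I) ^ 2) z := by
    have h4 : HasDerivAt (fun w : ℂ => 1 + w * Complex.I) Complex.I z := by
      simpa using ((hasDerivAt_id z).mul_const Complex.I).const_add 1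
    have h5 : HasDerivAt (fun w : ℂ => 1 - w * Complex.I) (-Complex.I) z := by
      simpa using ((hasDerivAt_id z).mul_const Complex.I).const_sub 1
    exact h4.div h5 h1
  have h4 := (h3.clog hs).const_mul (-Complex.I / 2)
  have h5 : Complex.arctan = fun w : ℂ => -Complex.I / 2 *
      Complex.log ((1 + w * Complex.I) / (1 - w * Complex.I)) := rfl
  rw [h5]
  have h6 : (1 + z ^ 2) = (1 - z * Complex.I) * (1 + z * Complex.I) := by
    ring_nf
    rw [Complex.I_sq]; ring
  have h7 : (1 + z ^ 2)⁻¹ = -Complex.I / 2 *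
      ((Complex.I * (1 - z * Complex.I) - (1 + z * Complex.I) * -Complex.I) /
        (1 - z * Complex.I) ^ 2 / ((1 + z * Complex.I) / (1 - z * Complex.I))) := by
    rw [h6]
    field_simp
    ring_nf
    rw [Complex.I_sq]
    ring
  rw [h7]
  exact h4

/-- `ζ U'(ζ) = (8/π²) arctan ζ` -/
theorem A2_mul {ζ : ℂ} (hζ : ‖ζ‖ < 1) :
    ζ * U' ζ = ((8 / Real.pi ^ 2 : ℝ) : ℂ) * Complex.arctan ζ := by
  rw [← (Complex.hasSum_arctan hζ).tsum_eq]
  unfold U'
  rw [mul_left_comm, ← tsum_mul_left]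
  congr 1
  refine tsum_congr fun k => ?_
  push_cast
  ring

theorem A2_zero : U' 0 = ((8 / Real.pi ^ 2 : ℝ) : ℂ) := by
  unfold U'
  rw [tsum_eq_single 0]
  · simp
  · intro k hk
    simp [hk]

theorem A2_re_pos {w : ℂ} (hw : ‖w‖ < 1) : 0 < ((1 + w)⁻¹).re := by
  have h1 : (1 + w) ≠ 0 := by
    intro h
    have : w = -1 := by linear_combination h
    rw [this] at hw
    simp at hw
  rw [Complex.inv_re]
  refine div_pos ?_ (Complex.normSq_pos.2 h1)
  have := (abs_lt.1 (lt_of_le_of_lt (Complex.abs_re_le_norm w) hw)).1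
  simp
  linarith

theorem A2_pos {ζ : ℂ} (hζ : ‖ζ‖ < 1) : 0 < (U' ζ).re := by
  have hpi : (0 : ℝ) < 8 / Real.pi ^ 2 := by positivity
  by_cases h0 : ζ = 0
  · rw [h0, A2_zero, Complex.ofReal_re]; exact hpi
  have hU : U' ζ = ((8 / Real.pi ^ 2 : ℝ) : ℂ) * (Complex.arctan ζ / ζ) := by
    have := A2_mul hζ
    rw [← mul_div_assoc, ← this, mul_div_cancel_left₀ _ h0]
  rw [hU, Complex.re_ofReal_mul]
  refine mul_pos hpi ?_
  -- G t = Re (arctan (t ζ) / ζ)
  have hder : ∀ t ∈ Icc (0 : ℝ) 1, HasDerivAt (fun t : ℝ => (Complex.arctan (t * ζ) / ζ).re)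
      (((1 + ((t : ℂ) * ζ) ^ 2)⁻¹).re) t := by
    intro t ht
    have htz : ‖(t : ℂ) * ζ‖ < 1 := by
      rw [norm_mul, Complex.norm_real, Real.norm_eq_abs, abs_of_nonneg ht.1]
      calc t * ‖ζ‖ ≤ 1 * ‖ζ‖ := by gcongr; exact ht.2
        _ < 1 := by rw [one_mul]; exact hζ
    have h1 : HasDerivAt (fun w : ℂ => Complex.arctan (w * ζ) / ζ)
        ((1 + ((t : ℂ) * ζ) ^ 2)⁻¹) (t : ℂ) := by
      have h2 := (A2_arctan_deriv htz).comp (t : ℂ) ((hasDerivAt_id (t : ℂ)).mul_const ζ)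
      have h3 := h2.div_const ζ
      have h4 : (1 + ((t : ℂ) * ζ) ^ 2)⁻¹ = (1 + ((t : ℂ) * ζ) ^ 2)⁻¹ * (1 * ζ) / ζ := by
        field_simp
      rw [h4]
      exact h3
    exact h1.real_of_complex
  have hcont : ContinuousOn (fun t : ℝ => (Complex.arctan (t * ζ) / ζ).re) (Icc 0 1) :=
    fun t ht => (hder t ht).continuousAt.continuousWithinAt
  have hmono : StrictMonoOn (fun t : ℝ => (Complex.arctan (t * ζ) / ζ).re) (Icc 0 1) := by
    refine strictMonoOn_of_deriv_pos (convex_Icc 0 1) hcont ?_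
    intro t ht
    rw [interior_Icc] at ht
    rw [(hder t ⟨ht.1.le, ht.2.le⟩).deriv]
    refine A2_re_pos ?_
    rw [norm_pow, norm_mul, Complex.norm_real, Real.norm_eq_abs, abs_of_nonneg ht.1.le]
    have h1 : t * ‖ζ‖ < 1 := by
      calc t * ‖ζ‖ ≤ 1 * ‖ζ‖ := by gcongr; exact ht.2.le
        _ < 1 := by rw [one_mul]; exact hζ
    have h2 : 0 ≤ t * ‖ζ‖ := mul_nonneg ht.1.le (norm_nonneg _)
    exact pow_lt_one₀ h2 h1 (by norm_num)
  have h := hmono (left_mem_Icc.2 zero_le_one) (right_mem_Icc.2 zero_le_one) zero_lt_one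
  have hz0 : Complex.arctan 0 = 0 := by simp [Complex.arctan]
  simpa [hz0] using h

theorem A2_inj_of (hA1 : ∀ ζ : ℂ, ‖ζ‖ < 1 → HasDerivAt U (U' ζ) ζ) :
    (∀ ζ : ℂ, ‖ζ‖ < 1 → 0 < (U' ζ).re) ∧ InjOn U (Metric.ball 0 1) := by
  refine ⟨fun ζ hζ => A2_pos hζ, ?_⟩
  intro a ha b hb hab
  by_contra hne
  have hsub : a - b ≠ 0 := sub_ne_zero.2 hne
  have hmem : ∀ t ∈ Icc (0 : ℝ) 1, ‖b + (t : ℂ) * (a - b)‖ < 1 := by
    intro t ht
    have h1 := (convex_ball (0 : ℂ) 1).add_smul_sub_mem hb ha ht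
    have h2 : b + t • (a - b) = b + (t : ℂ) * (a - b) := by rw [Complex.real_smul]
    rw [h2] at h1
    simpa using h1
  have hder : ∀ t ∈ Icc (0 : ℝ) 1, HasDerivAt (fun t : ℝ => (U (b + t * (a - b)) / (a - b)).re)
      ((U' (b + (t : ℂ) * (a - b))).re) t := by
    intro t ht
    have h1 : HasDerivAt (fun w : ℂ => U (b + w * (a - b)) / (a - b))
        (U' (b + (t : ℂ) * (a - b))) (t : ℂ) := by
      have h2 := (hA1 _ (hmem t ht)).comp (t : ℂ)
        (((hasDerivAt_id (t : ℂ)).mul_const (a - b)).const_add b)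
      have h3 := h2.div_const (a - b)
      have h4 : U' (b + (t : ℂ) * (a - b)) =
          U' (b + (t : ℂ) * (a - b)) * (1 * (a - b)) / (a - b) := by
        field_simp
      rw [h4]
      exact h3
    exact h1.real_of_complex
  have hcont : ContinuousOn (fun t : ℝ => (U (b + t * (a - b)) / (a - b)).re) (Icc 0 1) :=
    fun t ht => (hder t ht).continuousAt.continuousWithinAt
  have hmono : StrictMonoOn (fun t : ℝ => (U (b + t * (a - b)) / (a - b)).re) (Icc 0 1) := by
    refine strictMonoOn_of_deriv_pos (convex_Icc 0 1) hcont ?_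
    intro t ht
    rw [interior_Icc] at ht
    rw [(hder t ⟨ht.1.le, ht.2.le⟩).deriv]
    exact A2_pos (hmem t ⟨ht.1.le, ht.2.le⟩)
  have h := hmono (left_mem_Icc.2 zero_le_one) (right_mem_Icc.2 zero_le_one) zero_lt_one
  have h0 : b + (a - b) = a := by ring
  simp only [Complex.ofReal_zero, Complex.ofReal_one, zero_mul, one_mul, add_zero, h0, hab,
    lt_irrefl] at h

end Pool.Agent.H224R2.Mah
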